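import Pool.Agent.Y320.ST.Stm3

set_option autoImplicit false
open Filter Topology

namespace Pool.Agent.Y165.ST

open Pool.Agent.Y320.CM Pool.Agent.Y320.ST

theorem act2_aux (G : Type) [Group G] (τ : G → Sph → Sph) (hA : Act G τ) (H : Subgroup G)
    (hH : H.index = 2) : Act H (fun h x => τ (h : G) x) := by
  classical
  obtain ⟨g0, hg0⟩ := Subgroup.index_eq_two_iff.1 hH
  have hg0n : g0 ∉ H := by
    have h1 := hg0 1
    rw [one_mul] at h1
    rcases h1 with h | h
    · exact absurd H.one_mem h.2
    · exact h.2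
  have mem_or : ∀ g, g ∉ H → g0 * g ∈ H := by
    intro g hg
    rw [Subgroup.mul_mem_iff_of_index_two hH]
    exact ⟨fun h => absurd h hg0n, fun h => absurd h hg⟩
  have mem_or' : ∀ g, g ∉ H → g * g0 ∈ H := by
    intro g hg
    rw [Subgroup.mul_mem_iff_of_index_two hH]
    exact ⟨fun h => absurd h hg, fun h => absurd h hg0n⟩
  have hinv : ∀ g x, τ g⁻¹ (τ g x) = x := by
    intro g x
    rw [← hA.mul, inv_mul_cancel, hA.one]
  have hinj : ∀ g, Function.Injective (τ g) := by
    intro g x y h
    rw [← hinv g x, h, hinv]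
  refine ⟨?_, ?_, ?_, ?_, ?_, ?_, ?_⟩
  · intro x
    exact hA.one x
  · intro g h x
    exact hA.mul _ _ _
  · intro g
    exact hA.cont _
  · intro A U hU hne
    obtain ⟨g, hg⟩ := hA.contr (A ∪ A.image (τ g0)) U hU hne
    by_cases h : g ∈ H
    · exact ⟨⟨g, h⟩, fun a ha => hg a (Finset.mem_union_left _ ha)⟩
    · refine ⟨⟨g * g0, mem_or' g h⟩, fun a ha => ?_⟩
      have h1 := hg (τ g0 a) (Finset.mem_union_right _ (Finset.mem_image_of_mem _ ha))
      have h2 : τ (g * g0) a = τ g (τ g0 a) := hA.mul _ _ _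
      simp only
      rw [h2]
      exact h1
  · intro x
    obtain ⟨𝓦, v, w, hvw, h1, h2⟩ := hA.con x
    obtain ⟨k, hk⟩ : ∃ k : G, {g : G | k * g ∈ H} ∈ (𝓦 : Filter G) := by
      rcases 𝓦.mem_or_compl_mem (H : Set G) with h | h
      · refine ⟨1, mem_of_superset h ?_⟩
        intro g hg
        simpa using hg
      · refine ⟨g0, mem_of_superset h ?_⟩
        intro g hg
        exact mem_or g hg
    have hrange : Set.range (Subtype.val : H → G) ∈ (𝓦.map (fun g => k * g)) := by
      rw [Ultrafilter.mem_map]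
      refine mem_of_superset hk ?_
      intro g hg
      exact ⟨⟨k * g, hg⟩, rfl⟩
    have key : ∀ (y u : Sph), Tendsto (fun g => τ g y) (𝓦 : Filter G) (𝓝 u) →
        Tendsto (fun h : H => τ (h : G) y)
          ((𝓦.map (fun g => k * g)).comap Subtype.val_injective hrange : Ultrafilter H)
          (𝓝 (τ k u)) := by
      intro y u hy
      rw [Ultrafilter.coe_comap, Ultrafilter.coe_map]
      have h3 : Tendsto (fun g => τ g y) (map (fun g => k * g) (𝓦 : Filter G)) (𝓝 (τ k u)) := by
        rw [tendsto_map'_iff]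
        have h4 : ((fun g => τ g y) ∘ fun g => k * g) = fun g => τ k (τ g y) := by
          funext g
          exact hA.mul _ _ _
        rw [h4]
        exact ((hA.cont k).tendsto u).comp hy
      exact h3.comp tendsto_comap
    refine ⟨(𝓦.map (fun g => k * g)).comap Subtype.val_injective hrange, τ k v, τ k w,
      fun h => hvw (hinj k h), key x w h1, fun y hy => key y v (h2 y hy)⟩
  · intro a b e hab hae hbe c hc
    exact (hA.prop a b e hab hae hbe c hc).preimage Subtype.val_injective.injOn
  · obtain ⟨c, hc, hco⟩ := hA.coc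
    have huc : UniformContinuous (τ g0⁻¹) :=
      CompactSpace.uniformContinuous_of_continuous (hA.cont _)
    rw [Metric.uniformContinuous_iff] at huc
    obtain ⟨δ, hδ, huc⟩ := huc c hc
    have hfar : ∀ x y : Sph, c ≤ dist x y → δ ≤ dist (τ g0 x) (τ g0 y) := by
      intro x y hxy
      by_contra hcon
      push Not at hcon
      have h1 := huc hcon
      rw [hinv, hinv] at h1
      linarith
    refine ⟨min c δ, lt_min hc hδ, ?_⟩
    intro a b e hab hae hbe
    obtain ⟨g, h1, h2, h3⟩ := hco a b e hab hae hbe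
    by_cases h : g ∈ H
    · exact ⟨⟨g, h⟩, (min_le_left _ _).trans h1, (min_le_left _ _).trans h2,
        (min_le_left _ _).trans h3⟩
    · refine ⟨⟨g0 * g, mem_or g h⟩, ?_⟩
      simp only [hA.mul]
      exact ⟨(min_le_right _ _).trans (hfar _ _ h1), (min_le_right _ _).trans (hfar _ _ h2),
        (min_le_right _ _).trans (hfar _ _ h3)⟩

theorem act2 : S_ACT2 := fun G _ τ hA H hH => act2_aux G τ hA H hH

end Pool.Agent.Y165.ST
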